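import Pool.Agent.Helper5.PQ.Stm
import Pool.Agent.Helper5.RD.PK

/-! # Project PQ: package KQ, the choice of the constants -/

set_option autoImplicit false
set_option maxHeartbeats 1000000

namespace Pool.Agent.Helper13.PQ

open Finset Filter Topology Pool.Agent.Helper5.RD Pool.Agent.Helper5.PQ

/-- the binomial coefficients -/
lemma choose_core2 (g h F j A : ℕ) (c : ℝ) (h2j : 2 * j ≤ F + 1) (hj : j ≤ h)
    (hc : c ≤ 4 ^ j)
    (hm : 4 * ((A : ℝ) * g) ^ 2 * j ≤ ((F : ℝ) + 2 - 2 * j) ^ 2 * ((h : ℝ) + 1 - j)) :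
    c * ((A ^ (2 * j) * g.choose (2 * j) : ℕ) : ℝ) ≤
      (((F + 1).choose (2 * j) * h.choose j : ℕ) : ℝ) := by
  have h1 : ((g.choose (2 * j) : ℕ) : ℝ) ≤ (g : ℝ) ^ (2 * j) / (2 * j).factorial :=
    Nat.choose_le_pow_div (2 * j) g
  have hfac : (0 : ℝ) < (2 * j).factorial := by exact_mod_cast (2 * j).factorial_pos
  have hfac' : (0 : ℝ) < j.factorial := by exact_mod_cast j.factorial_pos
  have h3 : ((F : ℝ) + 2 - 2 * j) ^ (2 * j) / (2 * j).factorial ≤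
      (((F + 1).choose (2 * j) : ℕ) : ℝ) := by
    have h4 := Nat.pow_le_choose (α := ℝ) (2 * j) (F + 1)
    rw [Nat.cast_sub (by omega)] at h4
    push_cast at h4
    have e : (F : ℝ) + 1 + 1 - 2 * j = F + 2 - 2 * j := by ring
    rwa [e] at h4
  have h5 : ((h : ℝ) + 1 - j) ^ j / j.factorial ≤ ((h.choose j : ℕ) : ℝ) := by
    have h4 := Nat.pow_le_choose (α := ℝ) j h
    rw [Nat.cast_sub (by omega)] at h4
    push_cast at h4
    exact h4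
  have hF0 : (0 : ℝ) ≤ (F : ℝ) + 2 - 2 * j := by
    have : ((2 * j : ℕ) : ℝ) ≤ ((F + 1 : ℕ) : ℝ) := by exact_mod_cast h2j
    push_cast at this
    linarith
  have hk0 : (0 : ℝ) ≤ (h : ℝ) + 1 - j := by
    have : (j : ℝ) ≤ h := by exact_mod_cast hj
    linarith
  have h6 : (j.factorial : ℝ) ≤ (j : ℝ) ^ j := by exact_mod_cast Nat.factorial_le_pow j
  have h7 : (4 * ((A : ℝ) * g) ^ 2) ^ j * (j : ℝ) ^ j ≤
      ((F : ℝ) + 2 - 2 * j) ^ (2 * j) * ((h : ℝ) + 1 - j) ^ j := by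
    rw [← mul_pow, pow_mul ((F : ℝ) + 2 - 2 * j), ← mul_pow]
    exact pow_le_pow_left₀ (by positivity) hm j
  push_cast
  calc c * ((A : ℝ) ^ (2 * j) * (g.choose (2 * j) : ℝ)) ≤
        4 ^ j * ((A : ℝ) ^ (2 * j) * ((g : ℝ) ^ (2 * j) / (2 * j).factorial)) := by gcongr
    _ = ((4 * ((A : ℝ) * g) ^ 2) ^ j * j.factorial) / ((2 * j).factorial * j.factorial) := by
        rw [mul_pow 4, ← pow_mul ((A : ℝ) * g), mul_pow (A : ℝ)]
        field_simp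
    _ ≤ ((4 * ((A : ℝ) * g) ^ 2) ^ j * (j : ℝ) ^ j) / ((2 * j).factorial * j.factorial) := by
        gcongr
    _ ≤ (((F : ℝ) + 2 - 2 * j) ^ (2 * j) * ((h : ℝ) + 1 - j) ^ j) /
        ((2 * j).factorial * j.factorial) := by gcongr
    _ = (((F : ℝ) + 2 - 2 * j) ^ (2 * j) / (2 * j).factorial) *
        (((h : ℝ) + 1 - j) ^ j / j.factorial) := by field_simp
    _ ≤ _ := by gcongr

/-- the inequalities for a given real `l = log N` -/
lemma kq_core (ε θ δ τ γ u φ ψ : ℝ) (T A K1 : ℕ) (hε : 0 < ε) (hδ : 0 < δ)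
    (_hδ1 : δ ≤ 1) (hτ : 0 < τ) (hτ1 : τ ≤ 1) (hτ2 : τ ≤ ε / 16) (hτ3 : T * τ ≤ θ) (hT : 1 ≤ T)
    (_hγ : 0 < γ) (hγ1 : γ * (1 + 1 / ε) ≤ δ * τ / 48) (hu0 : 0 ≤ u) (hu1 : u ≤ δ / 48)
    (hu2 : u ≤ ε / 24) (hK1 : 1 ≤ K1) (hφ : 0 < φ) (hφ1 : φ * Real.log K1 ≤ ε / 8)
    (hψ : 0 < ψ) (hψ1 : 1024 * (A : ℝ) ^ 2 * ψ ≤ φ ^ 2 * δ) (hψ2 : 16 * ψ ≤ δ * τ)
    (hψ3 : 8 * ψ ≤ φ) :
    ∀ᶠ l : ℝ in atTop, ∃ g h j F : ℕ, 1 ≤ g ∧ (T : ℝ) * g ≤ θ * l ∧ 2 * (h : ℝ) ≤ δ * g ∧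
      4 * (T : ℝ) ^ 2 * ((1 + u) ^ g * (Real.exp l * Real.exp (1 / ε * l)) ^ γ) ≤ 2 ^ h ∧
      4 * (T : ℝ) ^ 2 * ((A ^ (2 * j) * g.choose (2 * j) : ℕ) : ℝ) ≤
        (((F + 1).choose (2 * j) * h.choose j : ℕ) : ℝ) ∧
      1 ≤ (F + 1).choose (2 * j) * h.choose j ∧
      (2 : ℝ) ^ (2 * g) * (1 + 3 * u) ^ g * (K1 : ℝ) ^ F ≤ Real.exp (ε / 2 * l) := by
  have hT0 : (0 : ℝ) < T := by exact_mod_cast hT
  have hlog2 : 0.6931 < Real.log 2 := by linarith [Real.log_two_gt_d9]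
  have hlog2' : Real.log 2 < 0.6932 := by linarith [Real.log_two_lt_d9]
  filter_upwards [eventually_ge_atTop (2 : ℝ), ev_lin (τ / 2) 1 (by positivity),
    ev_lin (φ / 2) 1 (by positivity), ev_lin (ψ / 2) 1 (by positivity),
    ev_lin (δ * τ / 8) 1 (by positivity),
    ev_exp (δ * τ / 48) (4 * (T : ℝ) ^ 2) (by positivity),
    ev_exp (ψ / 2) (4 * (T : ℝ) ^ 2) (by positivity)] with l l2 lτ lφ lψ lh eT eT'
  have l0 : 0 < l := by linarith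
  obtain ⟨g, hg⟩ : ∃ g : ℕ, g = ⌊τ * l⌋₊ := ⟨_, rfl⟩
  obtain ⟨F, hF⟩ : ∃ F : ℕ, F = ⌊φ * l⌋₊ := ⟨_, rfl⟩
  obtain ⟨j, hj⟩ : ∃ j : ℕ, j = ⌊ψ * l⌋₊ := ⟨_, rfl⟩
  obtain ⟨h, hh⟩ : ∃ h : ℕ, h = ⌊δ * g / 2⌋₊ := ⟨_, rfl⟩
  have g1 : (g : ℝ) ≤ τ * l := by rw [hg]; exact Nat.floor_le (by positivity)
  have g2 : τ * l / 2 ≤ g := by
    have := Nat.lt_floor_add_one (τ * l)
    rw [← hg] at this
    linarith
  have F1 : (F : ℝ) ≤ φ * l := by rw [hF]; exact Nat.floor_le (by positivity)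
  have F2 : φ * l / 2 ≤ F := by
    have := Nat.lt_floor_add_one (φ * l)
    rw [← hF] at this
    linarith
  have j1 : (j : ℝ) ≤ ψ * l := by rw [hj]; exact Nat.floor_le (by positivity)
  have j2 : ψ * l / 2 ≤ j := by
    have := Nat.lt_floor_add_one (ψ * l)
    rw [← hj] at this
    linarith
  have h1 : (h : ℝ) ≤ δ * g / 2 := by rw [hh]; exact Nat.floor_le (by positivity)
  have h2 : δ * τ * l / 8 ≤ h := by
    have := Nat.lt_floor_add_one (δ * g / 2)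
    rw [← hh] at this
    have h3 : δ * (τ * l / 2) ≤ δ * g := by gcongr
    linarith
  have hψl2 : 16 * (ψ * l) ≤ δ * τ * l := by
    have := mul_le_mul_of_nonneg_right hψ2 l0.le
    linarith
  have hψl3 : 8 * (ψ * l) ≤ φ * l := by
    have := mul_le_mul_of_nonneg_right hψ3 l0.le
    linarith
  have hjh : j ≤ h := by
    have : (j : ℝ) ≤ h := by linarith
    exact_mod_cast this
  have hjF : 2 * j ≤ F + 1 := by
    have h3 : 0 < φ * l := by positivity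
    have : ((2 * j : ℕ) : ℝ) ≤ ((F + 1 : ℕ) : ℝ) := by
      push_cast
      linarith
    exact_mod_cast this
  refine ⟨g, h, j, F, ?_, ?_, ?_, ?_, ?_, ?_, ?_⟩
  · have : (1 : ℝ) ≤ g := by linarith
    exact_mod_cast this
  · calc (T : ℝ) * g ≤ T * (τ * l) := by gcongr
      _ = T * τ * l := by ring
      _ ≤ θ * l := by gcongr
  · linarith
  · -- (c)
    have e1 : (1 + u) ^ g ≤ Real.exp (δ * τ / 48 * l) := by
      refine k_base u _ _ g hu0 ?_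
      calc (g : ℝ) * u ≤ τ * l * (δ / 48) := by gcongr
        _ = δ * τ / 48 * l := by ring
    have e2 : (Real.exp l * Real.exp (1 / ε * l)) ^ γ ≤ Real.exp (δ * τ / 48 * l) := by
      rw [← Real.exp_add, ← Real.exp_mul, Real.exp_le_exp]
      calc (l + 1 / ε * l) * γ = γ * (1 + 1 / ε) * l := by ring
        _ ≤ δ * τ / 48 * l := by gcongr
    have hr0 : 0 ≤ (Real.exp l * Real.exp (1 / ε * l)) ^ γ := by positivity
    calc 4 * (T : ℝ) ^ 2 * ((1 + u) ^ g * (Real.exp l * Real.exp (1 / ε * l)) ^ γ) ≤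
        Real.exp (δ * τ / 48 * l) * (Real.exp (δ * τ / 48 * l) * Real.exp (δ * τ / 48 * l)) := by
          gcongr
      _ = Real.exp (δ * τ * l / 8 / 2) := by
          rw [← Real.exp_add, ← Real.exp_add]
          congr 1
          ring
      _ ≤ 2 ^ h := by
          rw [two_pow_exp, Real.exp_le_exp]
          have h6 : (h : ℝ) * 0.6931 ≤ h * Real.log 2 := by gcongr
          have h7 : (0 : ℝ) ≤ h := Nat.cast_nonneg h
          linarith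
  · -- (d)
    refine choose_core2 g h F j A _ hjF hjh ?_ ?_
    · have e1 : (4 : ℝ) ^ j = Real.exp (j * (2 * Real.log 2)) := by
        have e : (4 : ℝ) = 2 ^ 2 := by norm_num
        rw [e, ← pow_mul, two_pow_exp]
        congr 1
        push_cast
        ring
      rw [e1]
      refine eT'.trans ?_
      rw [Real.exp_le_exp]
      have h3 : (j : ℝ) * 1 ≤ j * (2 * Real.log 2) := by
        gcongr
        linarith
      linarith
    · have a0 : (0 : ℝ) ≤ A := Nat.cast_nonneg A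
      have b1 : φ * l / 4 ≤ (F : ℝ) + 2 - 2 * j := by linarith
      have b2 : δ * τ * l / 16 ≤ (h : ℝ) + 1 - j := by linarith
      have b0 : 0 ≤ φ * l / 4 := by positivity
      have b3 : (φ * l / 4) ^ 2 * (δ * τ * l / 16) ≤
          ((F : ℝ) + 2 - 2 * j) ^ 2 * ((h : ℝ) + 1 - j) := by
        apply mul_le_mul
        · exact pow_le_pow_left₀ b0 b1 2
        · exact b2
        · positivity
        · positivity
      refine le_trans ?_ b3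
      calc 4 * ((A : ℝ) * g) ^ 2 * j ≤ 4 * ((A : ℝ) * (τ * l)) ^ 2 * (ψ * l) := by gcongr
        _ = (1024 * (A : ℝ) ^ 2 * ψ) * (τ * (τ * l ^ 3 / 256)) := by ring
        _ ≤ (φ ^ 2 * δ) * (1 * (τ * l ^ 3 / 256)) := by gcongr
        _ = (φ * l / 4) ^ 2 * (δ * τ * l / 16) := by ring
  · exact Nat.mul_pos (Nat.choose_pos hjF) (Nat.choose_pos hjh)
  · -- (f)
    have e1 : (2 : ℝ) ^ (2 * g) ≤ Real.exp (ε / 8 * l) := by
      rw [two_pow_exp, Real.exp_le_exp]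
      push_cast
      have h3 : (g : ℝ) * Real.log 2 ≤ (ε / 16 * l) * 1 := by
        have : τ * l ≤ ε / 16 * l := by gcongr
        gcongr
        · linarith
        · linarith
      linarith
    have e2 : (1 + 3 * u) ^ g ≤ Real.exp (ε / 8 * l) := by
      refine k_base (3 * u) _ _ g (by positivity) ?_
      have h3 : (g : ℝ) ≤ 1 * l := g1.trans (by gcongr)
      calc (g : ℝ) * (3 * u) ≤ (1 * l) * (3 * (ε / 24)) := by gcongr
        _ = ε / 8 * l := by ring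
    have hK0 : (0 : ℝ) < K1 := by exact_mod_cast hK1
    have e3 : (K1 : ℝ) ^ F ≤ Real.exp (ε / 8 * l) := by
      have h6 : (K1 : ℝ) ^ F = Real.exp ((F : ℝ) * Real.log K1) := by
        rw [Real.exp_nat_mul, Real.exp_log hK0]
      rw [h6, Real.exp_le_exp]
      have h7 : 0 ≤ Real.log K1 := Real.log_natCast_nonneg K1
      calc (F : ℝ) * Real.log K1 ≤ φ * l * Real.log K1 := by gcongr
        _ = φ * Real.log K1 * l := by ring
        _ ≤ ε / 8 * l := by gcongr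
    calc (2 : ℝ) ^ (2 * g) * (1 + 3 * u) ^ g * (K1 : ℝ) ^ F ≤
        Real.exp (ε / 8 * l) * Real.exp (ε / 8 * l) * Real.exp (ε / 8 * l) := by gcongr
      _ = Real.exp (ε / 2 * l - ε / 8 * l) := by
          rw [← Real.exp_add, ← Real.exp_add]
          congr 1
          ring
      _ ≤ Real.exp (ε / 2 * l) := by
          rw [Real.exp_le_exp]
          have : 0 < ε / 8 * l := by positivity
          linarith

/-- **Package KQ** -/
theorem kq : S_KQ := by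
  intro ε θ δ hε hε1 hθ hδ hδ1
  obtain ⟨T, hT⟩ : ∃ T : ℕ, T = ⌈2 / δ⌉₊ + 1 := ⟨_, rfl⟩
  have hT1 : 1 ≤ T := by omega
  have hT0 : (0 : ℝ) < T := by exact_mod_cast hT1
  have hTδ : 2 ≤ δ * T := by
    have h1 : 2 / δ ≤ T := by
      rw [hT]
      push_cast
      linarith [Nat.le_ceil (2 / δ)]
    rw [div_le_iff₀ hδ] at h1
    linarith
  obtain ⟨τ, hτ⟩ : ∃ τ : ℝ, τ = min (min 1 (ε / 16)) (θ / T) := ⟨_, rfl⟩
  have hτ0 : 0 < τ := by rw [hτ]; positivity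
  have hτ1 : τ ≤ 1 := by rw [hτ]; exact (min_le_left _ _).trans (min_le_left _ _)
  have hτ2 : τ ≤ ε / 16 := by rw [hτ]; exact (min_le_left _ _).trans (min_le_right _ _)
  have hτ3 : T * τ ≤ θ := by
    have h1 : τ ≤ θ / T := by rw [hτ]; exact min_le_right _ _
    rw [le_div_iff₀ hT0] at h1
    linarith
  have hs : 0 < 1 + 1 / ε := by positivity
  obtain ⟨γ, hγ⟩ : ∃ γ : ℝ, γ = min (δ * τ / 48 / (1 + 1 / ε)) (ε / 2) := ⟨_, rfl⟩
  have hγ0 : 0 < γ := by rw [hγ]; positivity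
  have hγ1 : γ * (1 + 1 / ε) ≤ δ * τ / 48 := by
    have h1 : γ ≤ δ * τ / 48 / (1 + 1 / ε) := by rw [hγ]; exact min_le_left _ _
    rwa [le_div_iff₀ hs] at h1
  have hγ2 : γ ≤ ε / 2 := by rw [hγ]; exact min_le_right _ _
  obtain ⟨K0, -, hK0, hK0c⟩ := ex_nat γ (min (δ / 48) (ε / 24)) hγ0 (by positivity) 1
  have hK00 : (0 : ℝ) < K0 := by exact_mod_cast hK0
  obtain ⟨u, hu⟩ : ∃ u : ℝ, u = (K0 : ℝ) ^ (-γ) := ⟨_, rfl⟩
  have hu0 : 0 < u := by rw [hu]; positivity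
  have hu1 : u ≤ δ / 48 := by rw [hu]; exact hK0c.trans (min_le_left _ _)
  have hu2 : u ≤ ε / 24 := by rw [hu]; exact hK0c.trans (min_le_right _ _)
  obtain ⟨K1, hK01, hK1, hK1c⟩ := ex_nat γ (u / K0) hγ0 (by positivity) K0
  have hK10 : (0 : ℝ) < K1 := by exact_mod_cast hK1
  obtain ⟨K2, -, hK2, hK2c⟩ := ex_nat γ (u / K1) hγ0 (by positivity) 1
  have hlogK : 0 ≤ Real.log K1 := Real.log_natCast_nonneg K1
  obtain ⟨φ, hφ⟩ : ∃ φ : ℝ, φ = ε / (8 * (1 + Real.log K1)) := ⟨_, rfl⟩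
  have hφ0 : 0 < φ := by rw [hφ]; positivity
  have hφ1 : φ * Real.log K1 ≤ ε / 8 := by
    rw [hφ, div_mul_eq_mul_div, div_le_div_iff₀ (by positivity) (by norm_num)]
    nlinarith
  obtain ⟨A, hA⟩ : ∃ A : ℕ, A = (K1 * K2) ^ 2 := ⟨_, rfl⟩
  have hA0 : (0 : ℝ) ≤ A := Nat.cast_nonneg A
  obtain ⟨ψ, hψ⟩ : ∃ ψ : ℝ, ψ = min (φ ^ 2 * δ / (1024 * ((A : ℝ) ^ 2 + 1)))
    (min (δ * τ / 16) (φ / 8)) := ⟨_, rfl⟩
  have hψ0 : 0 < ψ := by rw [hψ]; positivity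
  have hψ1 : 1024 * (A : ℝ) ^ 2 * ψ ≤ φ ^ 2 * δ := by
    have h1 : ψ ≤ φ ^ 2 * δ / (1024 * ((A : ℝ) ^ 2 + 1)) := by rw [hψ]; exact min_le_left _ _
    rw [le_div_iff₀ (by positivity)] at h1
    linarith
  have hψ2 : 16 * ψ ≤ δ * τ := by
    have h1 : ψ ≤ δ * τ / 16 := by rw [hψ]; exact (min_le_right _ _).trans (min_le_left _ _)
    linarith
  have hψ3 : 8 * ψ ≤ φ := by
    have h1 : ψ ≤ φ / 8 := by rw [hψ]; exact (min_le_right _ _).trans (min_le_right _ _)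
    linarith
  have key := kq_core ε θ δ τ γ u φ ψ T A K1 hε hδ hδ1 hτ0 hτ1 hτ2 hτ3 hT1 hγ0 hγ1 hu0.le hu1
    hu2 hK1 hφ0 hφ1 hψ0 hψ1 hψ2 hψ3
  have key2 := (Real.tendsto_log_atTop.comp tendsto_natCast_atTop_atTop).eventually key
  obtain ⟨N1, hN1⟩ := eventually_atTop.1 key2
  refine ⟨⟨K0, K1, K2⟩, γ, 1 + 3 * u, T, max N1 2, hK0, hK01, hK2, hγ0, hγ2, ?_, hT1, hTδ,
    le_max_right _ _, ?_⟩
  · change 1 + (K0 : ℝ) * (K1 : ℝ) ^ (-γ) + (K1 : ℝ) * (K2 : ℝ) ^ (-γ) + (K0 : ℝ) ^ (-γ) ≤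
      1 + 3 * u
    have h1 : (K0 : ℝ) * (K1 : ℝ) ^ (-γ) ≤ u := by
      calc (K0 : ℝ) * (K1 : ℝ) ^ (-γ) ≤ K0 * (u / K0) := by gcongr
        _ = u := by field_simp
    have h2 : (K1 : ℝ) * (K2 : ℝ) ^ (-γ) ≤ u := by
      calc (K1 : ℝ) * (K2 : ℝ) ^ (-γ) ≤ K1 * (u / K1) := by gcongr
        _ = u := by field_simp
    rw [← hu]
    linarith
  · intro N hN
    have hN2 : 2 ≤ N := (le_max_right _ _).trans hN
    have hN0 : (0 : ℝ) < N := by exact_mod_cast (by omega : 0 < N)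
    obtain ⟨g, h, j, F, c1, c2, c3, c4, c5, c6, c7⟩ := hN1 N ((le_max_left _ _).trans hN)
    simp only [Function.comp_apply] at c2 c4 c7
    have hpow : ∀ x : ℝ, Real.exp (x * Real.log N) = (N : ℝ) ^ x := fun x => by
      rw [Real.rpow_def_of_pos hN0, mul_comm]
    simp only [hpow, Real.exp_log hN0] at c4 c7
    refine ⟨g, h, j, F, c1, c2, c3, ?_, ?_, c6, c7⟩
    · change 4 * (T : ℝ) ^ 2 * ((1 + (K0 : ℝ) ^ (-γ)) ^ g * ((N : ℝ) * (N : ℝ) ^ (1 / ε)) ^ γ) ≤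
        2 ^ h
      rw [← hu]
      exact c4
    · change 4 * T ^ 2 * (((K1 * K2) ^ 2) ^ (2 * j) * g.choose (2 * j)) ≤
        (F + 1).choose (2 * j) * h.choose j
      rw [← hA]
      exact_mod_cast c5

end Pool.Agent.Helper13.PQ
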